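import Mathlib
import Pool.Agent.Helper116_WL.Basic

set_option autoImplicit false

/-!
# Tuples of exponentially weighted logarithms

For positive rational numbers `a` and `x` let `L_a(x) = ∫_x^{ax} exp (-t) / t dt`, and let
`L_a(0) = log a`. (Without the weight `exp (-t)` the integral is `log a` for every `x`.) Let `a_1, …, a_n` be positive
rational numbers, and let `X` be a set of positive rational numbers such that the numbers `x`, `a_i x`
(`x ∈ X`, `1 ≤ i ≤ n`) are pairwise distinct. We consider the tuples `L(x) = (L_{a_1}(x), …, L_{a_n}(x))` for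
`x ∈ {0} ∪ X`; the first one is `(log a_1, …, log a_n)`.

(1) `L_a(x)` tends to `log a` if `x > 0` tends to `0`.

(2) The numbers `e` and `log a_i - L_{a_i}(x)` (`x ∈ X`, `1 ≤ i ≤ n`) are algebraically independent.

(3) Let `y_1, …, y_r` be real numbers such that all the `log a_i` are algebraic over `ℚ(e, y_1, …, y_r)`. Then
for every finite set `S ⊆ X` the field `ℚ(e, y_1, …, y_r, L_{a_i}(x) : x ∈ S, i ≤ n)` has transcendence
degree at least `n |S| + 1`.

(4) The total defect of the tuples is at most `n`: for every finite set `S ⊆ {0} ∪ X`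
`∑_{x ∈ S} (n + 1 - trdeg ℚ(e, L_{a_1}(x), …, L_{a_n}(x))) ≤ n`.

(5) For at most `n` of the `x ∈ {0} ∪ X` the numbers `e, L_{a_1}(x), …, L_{a_n}(x)` are algebraically
dependent.

(6) If `log a_1, …, log a_n` are algebraically dependent, then for all but at most `n - 1` of the `x ∈ X` the
numbers `e, L_{a_1}(x), …, L_{a_n}(x)` are algebraically independent.

Proof.  `log a - L_a(x) = E(ax) - E(x)` with the E-function `E(x) = ∫_0^x (1 - exp (-t)) / t dt`; the theorem of
Siegel and Shidlovskii gives (2), and the rest is a count of transcendence degrees.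
-/

namespace Pool.Agent.Results.MP_60829e_nt.WeightedLogarithms

open Filter Topology Set MeasureTheory

/-- `L_a(x) = ∫_x^{ax} exp (-t) / t dt`, and `L_a(0) = log a` -/
noncomputable def L (a x : ℚ) : ℝ :=
  if x = 0 then Real.log a else ∫ t in (x : ℝ)..(a * x), Real.exp (-t) / t

/-- the numbers `x` and `a_i x` (`x ∈ X`, `1 ≤ i ≤ n`) are pairwise distinct -/
def Distinct {n : ℕ} (a : Fin n → ℚ) (X : Set ℚ) : Prop :=
  InjOn (fun p : Option (Fin n) × ℚ => p.1.elim 1 a * p.2) {p | p.2 ∈ X}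

/-- the numbers `e, L_{a_1}(x), …, L_{a_n}(x)` -/
noncomputable def tuple {n : ℕ} (a : Fin n → ℚ) (x : ℚ) : Fin (n + 1) → ℝ :=
  Fin.cons (Real.exp 1) fun i => L (a i) x

open Pool.Agent.R352.E Pool.Agent.Helper116_WL

theorem L_zero (a : ℚ) : L a 0 = Real.log a := if_pos rfl

theorem L_pos {a x : ℚ} (ha : 0 < a) (hx : 0 < x) :
    Real.log a - L a x = EE 1 ((a : ℝ) * (x : ℝ)) - EE 1 (x : ℝ) := by
  rw [L, if_neg hx.ne', wl_eq (by exact_mod_cast ha) (by exact_mod_cast hx)]
  ring

theorem diff_indep {n : ℕ} (a : Fin n → ℚ) (ha : ∀ i, 0 < a i) (X : Set ℚ) (hX : ∀ x ∈ X, 0 < x)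
    (hd : Distinct a X) (S : Finset ℚ) (hS : ∀ x ∈ S, x ∈ X) :
    AlgebraicIndependent ℚ (fun o : Option (Fin n × S) => o.elim (Real.exp 1) (fun p =>
      Real.log (a p.1) - L (a p.1) p.2)) := by
  have h := off_indep a ha S (fun x hx => hX x (hS x hx)) (by
    rintro ⟨o, x⟩ ⟨o', x'⟩ h
    have h2 := @hd (o, (x : ℚ)) (hS x x.2) (o', (x' : ℚ)) (hS x' x'.2) h
    simp only [Prod.mk.injEq] at h2
    exact Prod.ext h2.1 (Subtype.ext h2.2))
  convert h using 2 with o
  cases o with
  | none => rfl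
  | some p => exact L_pos (ha _) (hX _ (hS _ p.2.2))

theorem e_mem {n : ℕ} (a : Fin n → ℚ) (x : ℚ) : Real.exp 1 ∈ range (tuple a x) := ⟨0, rfl⟩

theorem L_mem {n : ℕ} (a : Fin n → ℚ) (x : ℚ) (i : Fin n) : L (a i) x ∈ range (tuple a x) :=
  ⟨i.succ, rfl⟩

theorem e_rank : 1 ≤ Mt.eRk {Real.exp 1} := by
  have h := EE_alg_Q 1 (ι := Fin 0) (fun i => i.elim0) (fun i => i.elim0) (fun i => i.elim0)
  have h2 := h.comp (fun _ : Fin 1 => none) (fun i j _ => Subsingleton.elim _ _)
  have h3 := card_le h2 (T := {Real.exp 1}) (fun i => subset_clF _ rfl)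
  simpa using h3

/-- the inequality for the ranks -/
theorem ranks {n : ℕ} (a : Fin n → ℚ) (ha : ∀ i, 0 < a i) (X : Set ℚ) (hX : ∀ x ∈ X, 0 < x)
    (hd : Distinct a X) (S : Finset ℚ) (hS : ∀ x ∈ S, x ∈ insert 0 X) :
    ∃ r : ℚ → ℕ, (n + 1) * S.card ≤ n + ∑ x ∈ S, r x ∧
      (∀ x, (r x : Cardinal) ≤ Algebra.trdeg ℚ (IntermediateField.adjoin ℚ (range (tuple a x)))) ∧
      ∀ x, n + 1 ≤ r x → AlgebraicIndependent ℚ (tuple a x) := by
  classical
  choose r hr1 hr2 hr3 hr4 using fun x => rank_fin (tuple a x)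
  refine ⟨r, ?_, hr3, hr4⟩
  set Sp : Finset ℚ := S.erase 0 with hSp
  have hSpX : ∀ x ∈ Sp, x ∈ X := by
    intro x hx
    have h1 := hS x (Finset.mem_of_mem_erase hx)
    exact h1.resolve_left (Finset.ne_of_mem_erase hx)
  have h0 : (0 : ℚ) ∉ Sp := Finset.notMem_erase _ _
  have h1 := rank_union (Real.exp 1) e_rank (insert 0 Sp) (fun x => range (tuple a x)) (e_mem a)
  have h2 := card_le (diff_indep a ha X hX hd Sp hSpX)
    (T := {Real.exp 1} ∪ ⋃ x ∈ insert 0 Sp, range (tuple a x)) (by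
      have hmem : ∀ x ∈ insert 0 Sp, ∀ i, L (a i) x ∈ clF ({Real.exp 1} ∪ ⋃ x ∈ insert 0 Sp, range (tuple a x)) := by
        intro x hx i
        refine subset_clF _ (Or.inr ?_)
        exact mem_biUnion (show x ∈ ((insert 0 Sp : Finset ℚ) : Set ℚ) from hx) (L_mem a x i)
      intro o
      cases o with
      | none => exact subset_clF _ (Or.inl rfl)
      | some p =>
        have h3 := hmem 0 (Finset.mem_insert_self _ _) p.1
        rw [L_zero] at h3
        exact (clF _).sub_mem h3 (hmem p.2 (Finset.mem_insert_of_mem p.2.2) p.1))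
  have h3 : n * Sp.card + 1 + (Sp.card + 1) ≤ 1 + (r 0 + ∑ x ∈ Sp, r x) := by
    have h4 := (add_le_add_left h2 (((insert 0 Sp : Finset ℚ).card : ℕ∞))).trans h1
    simp only [hr1, Fintype.card_option, Fintype.card_prod, Fintype.card_fin, Fintype.card_coe,
      Finset.card_insert_of_notMem h0, Finset.sum_insert h0] at h4
    exact_mod_cast h4
  have h5 := hr2 0
  by_cases h00 : (0 : ℚ) ∈ S
  · have e1 : S.card = Sp.card + 1 := (Finset.card_erase_add_one h00).symm
    have e2 : ∑ x ∈ S, r x = r 0 + ∑ x ∈ Sp, r x := (Finset.add_sum_erase S r h00).symm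
    rw [e1, e2]
    nlinarith
  · have e1 : Sp = S := Finset.erase_eq_of_notMem h00
    rw [e1] at h3
    nlinarith

theorem count {n : ℕ} (a : Fin n → ℚ) (ha : ∀ i, 0 < a i) (X : Set ℚ) (hX : ∀ x ∈ X, 0 < x)
    (hd : Distinct a X) :
    {x ∈ insert 0 X | ¬ AlgebraicIndependent ℚ (tuple a x)}.encard ≤ n := by
  refine encard_le_of_finset _ _ fun t ht => ?_
  obtain ⟨r, h1, -, h3⟩ := ranks a ha X hX hd t (fun x hx => (ht hx).1)
  have h4 : ∑ x ∈ t, r x ≤ ∑ x ∈ t, n := by
    refine Finset.sum_le_sum fun x hx => ?_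
    by_contra hcon
    exact (ht hx).2 (h3 x (by omega))
  rw [Finset.sum_const, smul_eq_mul] at h4
  nlinarith

theorem result {n : ℕ} (a : Fin n → ℚ) (ha : ∀ i, 0 < a i) (X : Set ℚ) (hX : ∀ x ∈ X, 0 < x)
    (hd : Distinct a X) :
    -- (1)
    (∀ i, Tendsto (fun x : ℝ => ∫ t in x..(a i * x), Real.exp (-t) / t) (𝓝[>] 0) (𝓝 (L (a i) 0))) ∧
    -- (2)
    AlgebraicIndependent ℚ (fun o : Option (Fin n × X) => o.elim (Real.exp 1) fun p =>
      Real.log (a p.1) - L (a p.1) p.2) ∧
    -- (3)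
    (∀ (r : ℕ) (y : Fin r → ℝ),
      (∀ i, IsAlgebraic (IntermediateField.adjoin ℚ ({Real.exp 1} ∪ range y)) (Real.log (a i))) →
      ∀ S : Finset ℚ, (S : Set ℚ) ⊆ X → ((n * S.card + 1 : ℕ) : Cardinal) ≤
        Algebra.trdeg ℚ (IntermediateField.adjoin ℚ
          ({Real.exp 1} ∪ range y ∪ {z | ∃ i, ∃ x ∈ S, z = L (a i) x}))) ∧
    -- (4)
    (∀ S : Finset ℚ, (S : Set ℚ) ⊆ insert 0 X → (((n + 1) * S.card : ℕ) : Cardinal) ≤
      n + ∑ x ∈ S, Algebra.trdeg ℚ (IntermediateField.adjoin ℚ (range (tuple a x)))) ∧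
    -- (5)
    {x ∈ insert 0 X | ¬ AlgebraicIndependent ℚ (tuple a x)}.encard ≤ n ∧
    -- (6)
    (¬ AlgebraicIndependent ℚ (fun i => Real.log (a i)) →
      {x ∈ X | ¬ AlgebraicIndependent ℚ (tuple a x)}.encard + 1 ≤ n) := by
  classical
  refine ⟨fun i => ?_, ?_, fun r y hy S hS => ?_, fun S hS => ?_, count a ha X hX hd, fun hlog => ?_⟩
  · rw [L_zero]
    exact wl_tendsto (by exact_mod_cast ha i)
  · refine algebraicIndependent_of_finite_type fun t ht => ?_
    let S : Finset ℚ := ht.toFinset.biUnion fun o => o.elim ∅ (fun p => {(p.2 : ℚ)})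
    have hS : ∀ p : Fin n × X, some p ∈ t → (p.2 : ℚ) ∈ S := fun p hp =>
      Finset.mem_biUnion.2 ⟨some p, ht.mem_toFinset.2 hp, by simp⟩
    have hSX : ∀ x ∈ S, x ∈ X := by
      intro x hx
      obtain ⟨o, -, h2⟩ := Finset.mem_biUnion.1 hx
      cases o with
      | none => simp at h2
      | some p =>
        simp only [Option.elim, Finset.mem_singleton] at h2
        rw [h2]; exact p.2.2
    have h := diff_indep a ha X hX hd S hSX
    let f : t → Option (Fin n × S) := fun o =>
      match o with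
      | ⟨none, _⟩ => none
      | ⟨some p, hp⟩ => some (p.1, ⟨p.2, hS p hp⟩)
    have hf : Function.Injective f := by
      rintro ⟨o, ho⟩ ⟨o', ho'⟩ hoo
      cases o with
      | none =>
        cases o' with
        | none => rfl
        | some p' => exact absurd hoo (by simp [f])
      | some p =>
        cases o' with
        | none => exact absurd hoo (by simp [f])
        | some p' =>
          simp only [f, Option.some.injEq, Prod.mk.injEq, Subtype.mk.injEq] at hoo
          have : p = p' := Prod.ext hoo.1 (Subtype.ext hoo.2)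
          subst this
          rfl
    have h2 := h.comp f hf
    convert h2 using 1
    ext ⟨o, ho⟩
    cases o <;> rfl
  · have h := diff_indep a ha X hX hd S hS
    have h2 := trdeg_ge h (A := {Real.exp 1} ∪ range y ∪ {z | ∃ i, ∃ x ∈ S, z = L (a i) x}) (by
      intro o
      cases o with
      | none => exact subset_clF _ (Or.inl (Or.inl rfl))
      | some p =>
        refine (clF _).sub_mem (clF_mono subset_union_left (mem_clF.2 (hy p.1))) ?_
        exact subset_clF _ (Or.inr ⟨p.1, p.2, p.2.2, rfl⟩))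
    refine le_trans (le_of_eq ?_) h2
    simp
  · obtain ⟨r, h1, h2, -⟩ := ranks a ha X hX hd S hS
    calc (((n + 1) * S.card : ℕ) : Cardinal) ≤ ((n + ∑ x ∈ S, r x : ℕ) : Cardinal) := by exact_mod_cast h1
      _ = n + ∑ x ∈ S, (r x : Cardinal) := by push_cast; rfl
      _ ≤ _ := by
        gcongr with x hx
        exact h2 x
  · have h1 := count a ha X hX hd
    have h2 : {x ∈ insert 0 X | ¬ AlgebraicIndependent ℚ (tuple a x)} =
        insert 0 {x ∈ X | ¬ AlgebraicIndependent ℚ (tuple a x)} := by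
      ext x
      simp only [Set.mem_ofPred_eq, mem_insert_iff]
      constructor
      · rintro ⟨rfl | h3, h4⟩
        · exact Or.inl rfl
        · exact Or.inr ⟨h3, h4⟩
      · rintro (rfl | ⟨h3, h4⟩)
        · refine ⟨Or.inl rfl, fun h5 => hlog ?_⟩
          have h6 := h5.comp Fin.succ (Fin.succ_injective n)
          convert h6 using 1
          ext i
          exact (L_zero _).symm
        · exact ⟨Or.inr h3, h4⟩
    rw [h2, encard_insert_of_notMem] at h1
    · exact h1
    · rintro ⟨h3, -⟩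
      exact lt_irrefl _ (hX 0 h3)

end Pool.Agent.Results.MP_60829e_nt.WeightedLogarithms
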